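import Pool.Agent.Lib.MP_f25cb6_lc.Defs
import Pool.Agent.Lib.MP_be4430_lc.P3_ToBin

/-!
# The instance of the reduction, with equal processing times

A machine runs through the families `0, 1, 2, …` of intervals.  The interval of the family `t` with
offset `a < N` on the machine `l` begins at `pos N k l t + 2 a` and has length `2 N + 1`.
-/

namespace Pool.Agent.Lib.MP_f25cb6_lc.Eq

open MP_634427_lc MP_be4430_lc

/-- number of positions -/
def S (N k : ℕ) : ℕ := (k * N + 1) * (k * (k * (2 * N + 1)))

/-- number of families -/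
def T (N k : ℕ) : ℕ := S N k * (8 * N + 1)

/-- the shift tested at position `s` -/
def qs (N s : ℕ) : ℕ := s % (2 * N + 1)

/-- the second machine of position `s` -/
def js (N k s : ℕ) : ℕ := s / (2 * N + 1) % k

/-- the first machine of position `s` -/
def is (N k s : ℕ) : ℕ := s / (2 * N + 1) / k % k

/-- the shift of the comb of machine `l` at position `s` -/
def shift (N k l s : ℕ) : ℕ := if l = js N k s ∧ is N k s ≠ js N k s then qs N s else N

/-- the delay that is inserted on machine `l` after position `s` -/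
def delay (N k l s : ℕ) : ℕ := 4 * N + 2 * shift N k l (s + 1) - 2 * shift N k l s

/-- the beginning of the family `t` of machine `l` -/
def pos (N k l t : ℕ) : ℕ :=
  (2 * N + 1) * t + (4 * N * (t / (8 * N + 1)) + (2 * shift N k l (t / (8 * N + 1)) +
    min (t % (8 * N + 1)) (delay N k l (t / (8 * N + 1)))))

variable (adj : ℕ → ℕ → Bool)

/-- machine `is` at offset `a` needs the shared job -/
def shI (N k s a : ℕ) : Bool :=
  decide (is N k s ≠ js N k s) && (decide (qs N s ≤ N + a) && (decide (N + a - qs N s < N) &&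
    !adj a (N + a - qs N s)))

/-- machine `js` at offset `b` needs the shared job -/
def shJ (N k s b : ℕ) : Bool :=
  decide (is N k s ≠ js N k s) && (decide (N ≤ qs N s + b) && (decide (qs N s + b - N < N) &&
    !adj (qs N s + b - N) b))

/-- A tag: family, machine, offset. -/
abbrev Tag := ℕ × ℕ × ℕ

/-- does the family contain shared jobs? -/
def test (N t : ℕ) : Bool := decide (t % (8 * N + 1) = 0)

/-- does the tag name a job of its own? -/
def ok (N k : ℕ) (t : Tag) : Bool :=
  !(test N t.1 && (decide (t.2.1 = js N k (t.1 / (8 * N + 1))) &&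
    shJ adj N k (t.1 / (8 * N + 1)) t.2.2))

/-- eligible machines of the job -/
def elg (N k : ℕ) (t : Tag) : List ℕ :=
  if test N t.1 && (decide (t.2.1 = is N k (t.1 / (8 * N + 1))) &&
    shI adj N k (t.1 / (8 * N + 1)) t.2.2) then
    [t.2.1, js N k (t.1 / (8 * N + 1))] else [t.2.1]

/-- start of the job -/
def st (N k : ℕ) (t : Tag) : ℕ := pos N k t.2.1 t.1 + 2 * t.2.2

/-- the job of a tag -/
def jobOf (N k : ℕ) (t : Tag) : Job :=
  ((toBin (st N k t), toBin (st N k t + (2 * N + 1))), ([true], elg adj N k t))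

/-- all tags -/
def tags (N k : ℕ) : List Tag :=
  ((List.range (T N k)).product ((List.range k).product (List.range N))).filter (ok adj N k)

/-- the jobs -/
def jobs (N k : ℕ) : List Job := (tags adj N k).map (jobOf adj N k)

variable {adj}

theorem nodup_tags (N k : ℕ) : (tags adj N k).Nodup := by
  unfold tags
  exact List.Nodup.filter _ (List.Nodup.product List.nodup_range
    (List.Nodup.product List.nodup_range List.nodup_range))

theorem mem_tags {N k : ℕ} {t l a : ℕ} :
    (t, l, a) ∈ tags adj N k ↔ (t < T N k ∧ l < k ∧ a < N) ∧ ok adj N k (t, l, a) = true := by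
  unfold tags
  rw [List.mem_filter]
  simp only [List.pair_mem_product, List.mem_range]

@[simp] theorem release_jobOf (N k : ℕ) (t : Tag) : release (jobOf adj N k t) = st N k t := by
  simp [release, jobOf, bval_toBin]

@[simp] theorem due_jobOf (N k : ℕ) (t : Tag) :
    due (jobOf adj N k t) = st N k t + (2 * N + 1) := by
  simp [due, jobOf, bval_toBin]

@[simp] theorem weight_jobOf (N k : ℕ) (t : Tag) : weight (jobOf adj N k t) = 1 := by
  simp [weight, jobOf, bval]

@[simp] theorem eligible_jobOf (N k : ℕ) (t : Tag) :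
    eligible (jobOf adj N k t) = elg adj N k t := rfl

/-! ## Arithmetic of the combs -/

theorem qs_le (N s : ℕ) : qs N s ≤ 2 * N := by
  have := Nat.mod_lt s (show 0 < 2 * N + 1 by omega)
  unfold qs
  omega

theorem shift_le (N k l s : ℕ) : shift N k l s ≤ 2 * N := by
  unfold shift
  split_ifs
  · exact qs_le N s
  · omega

/-- from one family to the next one the comb is delayed by `0` or `1` -/
theorem pos_succ (N k l t : ℕ) : pos N k l t + (2 * N + 1) ≤ pos N k l (t + 1) ∧
    pos N k l (t + 1) ≤ pos N k l t + (2 * N + 1) + 1 := by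
  set B := 8 * N + 1 with hB
  have hB0 : 0 < B := by omega
  set s := t / B with hs
  have hu := Nat.mod_lt t hB0
  have hd := Nat.div_add_mod t B
  rw [← hs] at hd
  set u := t % B with hudef
  have e0 : (2 * N + 1) * (t + 1) = (2 * N + 1) * t + (2 * N + 1) := by ring
  rcases Nat.lt_or_ge (u + 1) B with h | h
  · have h1 : (t + 1) / B = s := by
      rw [← hd, Nat.add_assoc, Nat.mul_add_div hB0, Nat.div_eq_of_lt h, Nat.add_zero]
    have h2 : (t + 1) % B = u + 1 := by
      rw [← hd, Nat.add_assoc, Nat.mul_add_mod, Nat.mod_eq_of_lt h]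
    unfold pos
    rw [← hB, h1, h2, ← hs, ← hudef, e0]
    omega
  · have hu1 : u + 1 = B := by omega
    have h0 : t + 1 = B * (s + 1) := by
      rw [← hd, Nat.add_assoc, hu1]
      ring
    have h1 : (t + 1) / B = s + 1 := by
      rw [h0, Nat.mul_div_cancel_left _ hB0]
    have h2 : (t + 1) % B = 0 := by
      rw [h0, Nat.mul_mod_right]
    have h3 := shift_le N k l s
    have h4 := shift_le N k l (s + 1)
    have e1 : 4 * N * (s + 1) = 4 * N * s + 4 * N := by ring
    unfold pos
    rw [← hB, h1, h2, ← hs, ← hudef, e0, e1]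
    have h5 : min u (delay N k l s) = delay N k l s := by
      apply min_eq_right
      unfold delay
      omega
    rw [h5]
    unfold delay
    omega

theorem js_lt {N k s : ℕ} (hk : 0 < k) : js N k s < k := Nat.mod_lt _ hk

theorem is_lt {N k s : ℕ} (hk : 0 < k) : is N k s < k := Nat.mod_lt _ hk

theorem shift_is {N k s : ℕ} (h : is N k s ≠ js N k s) : shift N k (is N k s) s = N := by
  unfold shift
  rw [if_neg (fun hc => h hc.1)]

theorem shift_js {N k s : ℕ} (h : is N k s ≠ js N k s) : shift N k (js N k s) s = qs N s := by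
  unfold shift
  rw [if_pos ⟨rfl, h⟩]

/-- at a test the difference between the two combs -/
theorem pos_test {N k t : ℕ} (ht : test N t = true)
    (h : is N k (t / (8 * N + 1)) ≠ js N k (t / (8 * N + 1))) :
    pos N k (is N k (t / (8 * N + 1))) t + 2 * qs N (t / (8 * N + 1)) =
      pos N k (js N k (t / (8 * N + 1))) t + 2 * N := by
  unfold test at ht
  rw [decide_eq_true_eq] at ht
  unfold pos
  rw [ht, shift_is h, shift_js h]
  omega

/-- the offset of a job, seen from the machine `l` -/
def off (N l : ℕ) (t : Tag) : ℕ :=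
  if l = t.2.1 then t.2.2 else N + t.2.2 - qs N (t.1 / (8 * N + 1))

theorem mem_elg {N k : ℕ} {t : Tag} {l : ℕ} (h : l ∈ elg adj N k t) :
    l = t.2.1 ∨ (test N t.1 = true ∧ l = js N k (t.1 / (8 * N + 1)) ∧
      t.2.1 = is N k (t.1 / (8 * N + 1)) ∧ l ≠ t.2.1 ∧
      is N k (t.1 / (8 * N + 1)) ≠ js N k (t.1 / (8 * N + 1)) ∧
      qs N (t.1 / (8 * N + 1)) ≤ N + t.2.2 ∧ N + t.2.2 - qs N (t.1 / (8 * N + 1)) < N ∧
      adj t.2.2 (N + t.2.2 - qs N (t.1 / (8 * N + 1))) = false) := by
  unfold elg at h
  split_ifs at h with h1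
  · simp only [Bool.and_eq_true, decide_eq_true_eq, shI, Bool.not_eq_true'] at h1
    simp only [List.mem_cons, List.not_mem_nil, or_false] at h
    rcases h with h | h
    · exact Or.inl h
    · right
      refine ⟨h1.1, h, h1.2.1, ?_, h1.2.2.1, h1.2.2.2.1, h1.2.2.2.2.1, h1.2.2.2.2.2⟩
      rw [h, h1.2.1]
      exact (Ne.symm h1.2.2.1)
  · simp only [List.mem_cons, List.not_mem_nil, or_false] at h
    exact Or.inl h

/-- the interval of a job, seen from an eligible machine -/
theorem view {N k : ℕ} {t l' a l : ℕ} (h : l ∈ elg adj N k (t, l', a)) (ha : a < N) :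
    st N k (t, l', a) = pos N k l t + 2 * off N l (t, l', a) ∧ off N l (t, l', a) < N := by
  rcases mem_elg h with h | ⟨h0, h1, h2, h3, h4, h5, h6, -⟩
  · simp only at h
    subst h
    simp [st, off, ha]
  · simp only at h0 h1 h2 h3 h4 h5 h6
    have h7 := pos_test h0 h4
    simp only [st, off, if_neg h3]
    rw [← h1, ← h2] at h7
    refine ⟨?_, h6⟩
    omega

/-! ## Two jobs on one machine -/

/-- disjointness of the intervals -/
def Disj (N k : ℕ) (t t' : Tag) : Prop :=
  st N k t + (2 * N + 1) ≤ st N k t' ∨ st N k t' + (2 * N + 1) ≤ st N k t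

theorem not_disj_same {N k : ℕ} {t a a' l1 l1' l : ℕ}
    (h : l ∈ elg adj N k (t, l1, a)) (h' : l ∈ elg adj N k (t, l1', a'))
    (ha : a < N) (ha' : a' < N) : ¬ Disj N k (t, l1, a) (t, l1', a') := by
  obtain ⟨e1, e2⟩ := view h ha
  obtain ⟨f1, f2⟩ := view h' ha'
  unfold Disj
  rw [e1, f1]
  omega

/-- offsets increase from one family to the next one -/
theorem off_le {N k : ℕ} {t a a' l1 l1' l : ℕ}
    (h : l ∈ elg adj N k (t, l1, a)) (h' : l ∈ elg adj N k (t + 1, l1', a'))
    (ha : a < N) (ha' : a' < N) (hd : Disj N k (t, l1, a) (t + 1, l1', a')) :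
    off N l (t, l1, a) ≤ off N l (t + 1, l1', a') := by
  obtain ⟨e1, e2⟩ := view h ha
  obtain ⟨f1, f2⟩ := view h' ha'
  obtain ⟨h1, h2⟩ := pos_succ N k l t
  unfold Disj at hd
  rw [e1, f1] at hd
  omega

end Pool.Agent.Lib.MP_f25cb6_lc.Eq
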