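import Pool.Agent.Lib.MP_f25cb6_lc.Eq.Red

/-! # Hardness of the restriction to equal jobs -/

namespace Pool.Agent.Lib.MP_f25cb6_lc

open MP_634427_lc MP_be4430_lc

/-- The restriction of the scheduling problem to instances in which all jobs have weight one and
the same processing time, and each job has at most two eligible machines. -/
def SCHEDEqual : Set (Word × ℕ) :=
  {p | ∃ (J : List Job) (b : Word), p.1 = code (enc ((p.2, J), b)) ∧ Valid p.2 J ∧
    (∀ t ∈ J, weight t = 1 ∧ (eligible t).length ≤ 2) ∧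
    (∃ q : ℕ, ∀ t ∈ J, due t = release t + q) ∧
    ∃ σ : Fin J.length → Option (Fin p.2), Feasible p.2 J σ ∧ bval b ≤ value J σ}

namespace Eq

theorem redW_spec (w : Word) (k : ℕ) : (w, k) ∈ CLIQUE ↔ (redW (w, k), k) ∈ SCHEDEqual := by
  rw [redJobs_spec]
  constructor
  · rintro ⟨σ, h1, h2⟩
    refine ⟨redJobs (w, k), toBin (redBound (w, k)), rfl, redJobs_valid w k,
      fun t ht => ⟨(redJobs_unit w k t ht).1, (redJobs_unit w k t ht).2.1⟩,
      ⟨redTime (w, k), fun t ht => (redJobs_unit w k t ht).2.2⟩, σ, h1, ?_⟩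
    rwa [bval_toBin]
  · rintro ⟨J, b, hJ, -, -, -, hσ⟩
    have := enc_inst_injective (code_injective hJ)
    rw [Prod.mk.injEq, Prod.mk.injEq] at this
    obtain ⟨⟨-, rfl⟩, rfl⟩ := this
    rwa [bval_toBin] at hσ

theorem w1Hard : W1Hard SCHEDEqual := by
  rintro Q' ⟨f, g, R, hf, hg, hR, hspec⟩
  refine ⟨f, g, fun x => (redW (R x), (R x).2), hf, hg, PT.pair (pt_redW.comp hR) (PT.snd' hR), ?_⟩
  intro x k
  obtain ⟨h1, h2⟩ := hspec x k
  refine ⟨h1, h2.trans ?_⟩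
  have := redW_spec (R ((x, k), f k)).1 (R ((x, k), f k)).2
  exact this

theorem fpt_clique (h : FPT SCHEDEqual) : FPT CLIQUE := by
  obtain ⟨f, A, hf, hA, hspec⟩ := h
  refine ⟨f, fun x => A ((redW x.1, x.1.2), x.2), hf,
    hA.comp (PT.pair (PT.pair (pt_redW.comp PT.fst) (PT.snd' PT.fst)) PT.snd), fun x k => ?_⟩
  rw [redW_spec x k]
  exact hspec _ _

theorem reduction : ∃ (J : Word × ℕ → List Job) (b q : Word × ℕ → ℕ) (c : ℕ), PT J ∧ PT b ∧
    ∀ w k, Valid k (J (w, k)) ∧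
      (∀ t ∈ J (w, k), weight t = 1 ∧ (eligible t).length ≤ 2 ∧ due t = release t + q (w, k) ∧
        due t ≤ (w.length + k + 2) ^ c) ∧
      ((w, k) ∈ CLIQUE ↔ ∃ σ, Feasible k (J (w, k)) σ ∧ b (w, k) ≤ value (J (w, k)) σ) := by
  obtain ⟨c, hc⟩ := redJobs_due
  exact ⟨redJobs, redBound, redTime, c, pt_redJobs, pt_redBound, fun w k => ⟨redJobs_valid w k,
    fun t ht => ⟨(redJobs_unit w k t ht).1, (redJobs_unit w k t ht).2.1,
      (redJobs_unit w k t ht).2.2, hc w k t ht⟩, redJobs_spec w k⟩⟩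

end Eq

end Pool.Agent.Lib.MP_f25cb6_lc
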