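import Pool.Agent.Lib.MP_f25cb6_lc.Eq.Comb

/-! # From a clique to a full schedule -/

namespace Pool.Agent.Lib.MP_f25cb6_lc.Eq

open Finset

variable (adj : ℕ → ℕ → Bool)

/-- the machine of a job in the schedule given by `v` -/
def sch (N k : ℕ) (v : ℕ → ℕ) (t : Tag) : Option ℕ :=
  if t.2.2 = v t.2.1 then some t.2.1
  else if test N t.1 = true ∧ t.2.1 = is N k (t.1 / (8 * N + 1)) ∧
    shI adj N k (t.1 / (8 * N + 1)) t.2.2 = true ∧
    N + t.2.2 - qs N (t.1 / (8 * N + 1)) = v (js N k (t.1 / (8 * N + 1))) then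
      some (js N k (t.1 / (8 * N + 1)))
  else none

variable {adj}

/-- what it means that the schedule uses machine `i` -/
theorem sch_eq {N k : ℕ} {v : ℕ → ℕ} {t l a : ℕ} {i : ℕ}
    (h : sch adj N k v (t, l, a) = some i) :
    (l = i ∧ a = v i) ∨ (test N t = true ∧ i = js N k (t / (8 * N + 1)) ∧
      l = is N k (t / (8 * N + 1)) ∧ is N k (t / (8 * N + 1)) ≠ js N k (t / (8 * N + 1)) ∧
      qs N (t / (8 * N + 1)) ≤ N + a ∧ N + a - qs N (t / (8 * N + 1)) = v i ∧
      N + a - qs N (t / (8 * N + 1)) < N ∧ adj a (v i) = false) := by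
  unfold sch at h
  simp only at h
  split_ifs at h with h1 h2
  · left
    rw [Option.some.injEq] at h
    subst h
    exact ⟨rfl, h1⟩
  · right
    rw [Option.some.injEq] at h
    obtain ⟨h3, h4, h5, h6⟩ := h2
    simp only [shI, Bool.and_eq_true, decide_eq_true_eq, Bool.not_eq_true'] at h5
    rw [← h]
    refine ⟨h3, rfl, h4, h5.1, h5.2.1, h6, h5.2.2.1, ?_⟩
    rw [← h6]
    exact h5.2.2.2

theorem sch_elg {N k : ℕ} {v : ℕ → ℕ} {t : Tag} {i : ℕ} (h : sch adj N k v t = some i) :
    i ∈ elg adj N k t := by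
  obtain ⟨s, l, a⟩ := t
  unfold sch at h
  simp only at h
  unfold elg
  simp only
  split_ifs at h with h1 h2
  · rw [Option.some.injEq] at h
    subst h
    split_ifs <;> simp
  · rw [Option.some.injEq] at h
    obtain ⟨h3, h4, h5, h6⟩ := h2
    rw [if_pos (by simp [h3, h4, h5])]
    rw [← h]
    simp

/-- the interval of a job on machine `i` -/
theorem sch_view {N k : ℕ} {v : ℕ → ℕ} {t l a : ℕ} {i : ℕ} (ha : a < N)
    (h : sch adj N k v (t, l, a) = some i) : st N k (t, l, a) = pos N k i t + 2 * v i := by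
  obtain ⟨e1, -⟩ := view (sch_elg h) ha
  have hoff : off N i (t, l, a) = v i := by
    rcases sch_eq h with ⟨h2, h3⟩ | ⟨-, h2, h3, h4, -, h5, -⟩
    · simp only [off]
      rw [if_pos h2.symm, h3]
    · simp only [off]
      rw [if_neg, h5]
      rw [h2, h3]
      exact Ne.symm h4
  rw [e1, hoff]

/-- a job is determined by machine and family -/
theorem sch_unique {N k : ℕ} {v : ℕ → ℕ} {t l l' a a' : ℕ} {i : ℕ}
    (ha : a < N) (ha' : a' < N)
    (hok : ok adj N k (t, l, a) = true) (hok' : ok adj N k (t, l', a') = true)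
    (h : sch adj N k v (t, l, a) = some i) (h' : sch adj N k v (t, l', a') = some i) :
    l = l' ∧ a = a' := by
  have key : ∀ {l l' a a' : ℕ}, a' < N → ok adj N k (t, l, a) = true →
      (l = i ∧ a = v i) → (test N t = true ∧ i = js N k (t / (8 * N + 1)) ∧
      l' = is N k (t / (8 * N + 1)) ∧ is N k (t / (8 * N + 1)) ≠ js N k (t / (8 * N + 1)) ∧
      qs N (t / (8 * N + 1)) ≤ N + a' ∧ N + a' - qs N (t / (8 * N + 1)) = v i ∧
      N + a' - qs N (t / (8 * N + 1)) < N ∧ adj a' (v i) = false) → False := by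
    intro l l' a a' ha' hok h1 h2
    obtain ⟨h3, h4⟩ := h1
    obtain ⟨g1, g2, g3, g4, g5, g6, g7, g8⟩ := h2
    have h5 : shJ adj N k (t / (8 * N + 1)) a = true := by
      unfold shJ
      simp only [Bool.and_eq_true, decide_eq_true_eq]
      refine ⟨g4, by omega, by omega, ?_⟩
      have : qs N (t / (8 * N + 1)) + a - N = a' := by omega
      rw [this, h4, g8]
      rfl
    unfold ok at hok
    simp only [h5, g1] at hok
    rw [h3, ← g2] at hok
    simp at hok
  rcases sch_eq h with h1 | h1 <;> rcases sch_eq h' with h2 | h2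
  · exact ⟨h1.1.trans h2.1.symm, h1.2.trans h2.2.symm⟩
  · exact absurd h2 (fun h2 => key ha' hok h1 h2)
  · exact absurd h1 (fun h1 => key ha hok' h2 h1)
  · obtain ⟨g1, g2, g3, g4, g5, g6, g7, g8⟩ := h1
    obtain ⟨f1, f2, f3, f4, f5, f6, f7, f8⟩ := h2
    exact ⟨g3.trans f3.symm, by omega⟩

theorem pos_mono (N k l s d : ℕ) (hd : 0 < d) :
    pos N k l s + (2 * N + 1) ≤ pos N k l (s + d) := by
  induction d with
  | zero => omega
  | succ d ih =>
    have h1 := (pos_succ N k l (s + d)).1
    show pos N k l s + (2 * N + 1) ≤ pos N k l (s + d + 1)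
    rcases Nat.eq_zero_or_pos d with h | h
    · rw [h] at h1 ⊢
      exact h1
    · have := ih h
      omega

/-- jobs on one machine are disjoint -/
theorem sch_disj {N k : ℕ} {v : ℕ → ℕ} {t t' : Tag} {i : ℕ}
    (ht : t ∈ tags adj N k) (ht' : t' ∈ tags adj N k) (hne : t ≠ t')
    (h : sch adj N k v t = some i) (h' : sch adj N k v t' = some i) : Disj N k t t' := by
  obtain ⟨s, l, a⟩ := t
  obtain ⟨s', l', a'⟩ := t'
  obtain ⟨⟨-, -, ha⟩, hok⟩ := mem_tags.1 ht
  obtain ⟨⟨-, -, ha'⟩, hok'⟩ := mem_tags.1 ht'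
  have v1 := sch_view ha h
  have v2 := sch_view ha' h'
  rcases lt_trichotomy s s' with hs | hs | hs
  · left
    have := pos_mono N k i s (s' - s) (by omega)
    rw [show s + (s' - s) = s' by omega] at this
    rw [v1, v2]
    omega
  · subst hs
    exfalso
    obtain ⟨h1, h2⟩ := sch_unique ha ha' hok hok' h h'
    exact hne (by rw [h1, h2])
  · right
    have := pos_mono N k i s' (s - s') (by omega)
    rw [show s' + (s - s') = s by omega] at this
    rw [v1, v2]
    omega

/-- the schedule uses all machines all the time -/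
theorem sch_card {N k : ℕ} {v : ℕ → ℕ} (hv : ∀ i < k, v i < N)
    (hadj : ∀ i < k, ∀ j < k, i ≠ j → adj (v i) (v j) = true) :
    k * T N k ≤ ((tags adj N k).toFinset.filter
      (fun t => (sch adj N k v t).isSome = true)).card := by
  classical
  -- the job of machine `l` in the family `s`
  have hex : ∀ x ∈ range k ×ˢ range (T N k), ∃ t : Tag,
      t ∈ tags adj N k ∧ sch adj N k v t = some x.1 ∧ t.1 = x.2 := by
    rintro ⟨l, s⟩ hx
    simp only [Finset.mem_product, Finset.mem_range] at hx
    obtain ⟨hl, hs⟩ := hx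
    have hown : sch adj N k v (s, l, v l) = some l := by
      unfold sch
      simp
    by_cases hok : ok adj N k (s, l, v l) = true
    · exact ⟨(s, l, v l), mem_tags.2 ⟨⟨hs, hl, hv l hl⟩, hok⟩, hown, rfl⟩
    · unfold ok at hok
      simp only [Bool.not_eq_true', Bool.and_eq_false_imp, not_forall, Bool.not_eq_false,
        decide_eq_true_eq, exists_prop] at hok
      obtain ⟨hc, hl', hsh⟩ := hok
      unfold shJ at hsh
      simp only [Bool.and_eq_true, decide_eq_true_eq, Bool.not_eq_true'] at hsh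
      obtain ⟨g1, g2, g3, g4⟩ := hsh
      have hk : 0 < k := by omega
      set a := qs N (s / (8 * N + 1)) + v l - N with ha
      have hisk : is N k (s / (8 * N + 1)) < k := is_lt hk
      have hav : a ≠ v (is N k (s / (8 * N + 1))) := by
        intro h
        have h1 := hadj (is N k (s / (8 * N + 1))) hisk l hl (by rw [hl']; exact g1)
        rw [← h, g4] at h1
        exact absurd h1 (by simp)
      have hNa : N + a - qs N (s / (8 * N + 1)) = v l := by omega
      refine ⟨(s, is N k (s / (8 * N + 1)), a), mem_tags.2 ⟨⟨hs, hisk, g3⟩, ?_⟩, ?_, rfl⟩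
      · unfold ok
        simp only [decide_eq_false g1]
        simp
      · unfold sch
        simp only
        rw [if_neg hav, if_pos, hl']
        refine ⟨hc, trivial, ?_, by rw [hNa, hl']⟩
        unfold shI
        simp only [Bool.and_eq_true, decide_eq_true_eq, Bool.not_eq_true']
        refine ⟨g1, by omega, by rw [hNa]; exact hv l hl, ?_⟩
        rw [hNa]
        exact g4
  choose! J hJ using hex
  have hinj : Set.InjOn J (range k ×ˢ range (T N k) : Finset _) := by
    rintro x hx y hy h
    obtain ⟨-, h1, h2⟩ := hJ x hx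
    obtain ⟨-, g1, g2⟩ := hJ y hy
    rw [h, g1, Option.some.injEq] at h1
    rw [h, g2] at h2
    exact Prod.ext h1.symm h2.symm
  have hsub : (range k ×ˢ range (T N k)).image J ⊆
      (tags adj N k).toFinset.filter (fun t => (sch adj N k v t).isSome = true) := by
    intro t ht
    obtain ⟨x, hx, rfl⟩ := Finset.mem_image.1 ht
    obtain ⟨h0, h1, -⟩ := hJ x hx
    rw [Finset.mem_filter, List.mem_toFinset, h1]
    exact ⟨h0, rfl⟩
  have h1 := Finset.card_le_card hsub
  rwa [Finset.card_image_of_injOn hinj, Finset.card_product,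
    Finset.card_range, Finset.card_range] at h1

end Pool.Agent.Lib.MP_f25cb6_lc.Eq
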