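import Pool.Agent.Lib.MP_f25cb6_lc.Eq.Transfer
import Pool.Agent.Lib.MP_f25cb6_lc.Red

/-! # The reduction is computable in polynomial time -/

namespace Pool.Agent.Lib.MP_f25cb6_lc.Eq

open MP_634427_lc MP_be4430_lc

variable {γ : Type} [Enc γ]

/-! ## The instance -/

variable {N k s l a : γ → ℕ}

theorem pt_S (hN : PT N) (hk : PT k) : PT fun c => S (N c) (k c) :=
  PT.mul (PT.succ (PT.mul hk hN)) (PT.mul hk (PT.mul hk (pt_M hN)))

theorem pt_B (hN : PT N) : PT fun c => 8 * N c + 1 := PT.succ (PT.mul (PT.const 8) hN)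

theorem pt_T (hN : PT N) (hk : PT k) : PT fun c => T (N c) (k c) :=
  PT.mul (pt_S hN hk) (pt_B hN)

theorem pt_qs (hN : PT N) (hs : PT s) : PT fun c => qs (N c) (s c) := PT.mod hs (pt_M hN)

theorem pt_js (hN : PT N) (hk : PT k) (hs : PT s) : PT fun c => js (N c) (k c) (s c) :=
  PT.mod (pt_div hs (pt_M hN)) hk

theorem pt_is (hN : PT N) (hk : PT k) (hs : PT s) : PT fun c => is (N c) (k c) (s c) :=
  PT.mod (pt_div (pt_div hs (pt_M hN)) hk) hk

theorem pt_shift (hN : PT N) (hk : PT k) (hl : PT l) (hs : PT s) :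
    PT fun c => shift (N c) (k c) (l c) (s c) :=
  (PT.cond (PT.and (PT.eqNat hl (pt_js hN hk hs)) (pt_ne (pt_is hN hk hs) (pt_js hN hk hs)))
    (pt_qs hN hs) hN).of_eq fun c => by
      unfold shift
      rw [← Bool.decide_and, Bool.cond_decide]

theorem pt_delay (hN : PT N) (hk : PT k) (hl : PT l) (hs : PT s) :
    PT fun c => delay (N c) (k c) (l c) (s c) :=
  PT.sub (PT.add (PT.mul (PT.const 4) hN) (PT.mul (PT.const 2) (pt_shift hN hk hl (PT.succ hs))))
    (PT.mul (PT.const 2) (pt_shift hN hk hl hs))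

theorem pt_pos (hN : PT N) (hk : PT k) (hl : PT l) (hs : PT s) :
    PT fun c => pos (N c) (k c) (l c) (s c) := by
  have h1 := pt_div hs (pt_B hN)
  have h2 := PT.mod hs (pt_B hN)
  exact PT.add (PT.mul (pt_M hN) hs) (PT.add (PT.mul (PT.mul (PT.const 4) hN) h1)
    (PT.add (PT.mul (PT.const 2) (pt_shift hN hk hl h1)) (PT.min h2 (pt_delay hN hk hl h1))))

variable {E : γ → List (ℕ × ℕ)}

theorem pt_shI (hE : PT E) (hN : PT N) (hk : PT k) (hs : PT s) (ha : PT a) :
    PT fun c => shI (adjE (E c)) (N c) (k c) (s c) (a c) := by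
  have h1 : PT fun c => N c + a c - qs (N c) (s c) := PT.sub (PT.add hN ha) (pt_qs hN hs)
  exact PT.and (pt_ne (pt_is hN hk hs) (pt_js hN hk hs))
    (PT.and (PT.le (pt_qs hN hs) (PT.add hN ha)) (PT.and (PT.lt h1 hN)
      (PT.not (pt_adjE hE ha h1))))

theorem pt_shJ (hE : PT E) (hN : PT N) (hk : PT k) (hs : PT s) (ha : PT a) :
    PT fun c => shJ (adjE (E c)) (N c) (k c) (s c) (a c) := by
  have h1 : PT fun c => qs (N c) (s c) + a c - N c := PT.sub (PT.add (pt_qs hN hs) ha) hN
  exact PT.and (pt_ne (pt_is hN hk hs) (pt_js hN hk hs))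
    (PT.and (PT.le hN (PT.add (pt_qs hN hs) ha)) (PT.and (PT.lt h1 hN)
      (PT.not (pt_adjE hE h1 ha))))

variable {t : γ → Tag}

theorem pt_test (hN : PT N) (hs : PT s) : PT fun c => test (N c) (s c) :=
  PT.eqNat (PT.mod hs (pt_B hN)) (PT.const 0)

theorem pt_ok (hE : PT E) (hN : PT N) (hk : PT k) (ht : PT t) :
    PT fun c => ok (adjE (E c)) (N c) (k c) (t c) := by
  have ht1 : PT fun c => (t c).1 := PT.fst' ht
  have hs := pt_div ht1 (pt_B hN)
  have hl : PT fun c => (t c).2.1 := PT.fst' (PT.snd' ht)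
  have ha : PT fun c => (t c).2.2 := PT.snd' (PT.snd' ht)
  exact PT.not (PT.and (pt_test hN ht1) (PT.and (PT.eqNat hl (pt_js hN hk hs))
    (pt_shJ hE hN hk hs ha)))

theorem pt_elg (hE : PT E) (hN : PT N) (hk : PT k) (ht : PT t) :
    PT fun c => elg (adjE (E c)) (N c) (k c) (t c) := by
  have ht1 : PT fun c => (t c).1 := PT.fst' ht
  have hs := pt_div ht1 (pt_B hN)
  have hl : PT fun c => (t c).2.1 := PT.fst' (PT.snd' ht)
  have ha : PT fun c => (t c).2.2 := PT.snd' (PT.snd' ht)
  refine (PT.cond (PT.and (pt_test hN ht1) (PT.and (PT.eqNat hl (pt_is hN hk hs))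
    (pt_shI hE hN hk hs ha))) (PT.cons hl (PT.cons (pt_js hN hk hs) (PT.const [])))
    (PT.cons hl (PT.const []))).of_eq fun c => ?_
  unfold elg
  rcases (test (N c) (t c).1 && (decide ((t c).2.1 = is (N c) (k c) ((t c).1 / (8 * N c + 1))) &&
    shI (adjE (E c)) (N c) (k c) ((t c).1 / (8 * N c + 1)) (t c).2.2)) with _ | _ <;> simp

theorem pt_st (hN : PT N) (hk : PT k) (ht : PT t) : PT fun c => st (N c) (k c) (t c) :=
  PT.add (pt_pos hN hk (PT.fst' (PT.snd' ht)) (PT.fst' ht))
    (PT.mul (PT.const 2) (PT.snd' (PT.snd' ht)))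

theorem pt_jobOf (hE : PT E) (hN : PT N) (hk : PT k) (ht : PT t) :
    PT fun c => jobOf (adjE (E c)) (N c) (k c) (t c) :=
  PT.pair (PT.pair (pt_toBin (pt_st hN hk ht)) (pt_toBin (PT.add (pt_st hN hk ht) (pt_M hN))))
    (PT.pair (PT.const [true]) (pt_elg hE hN hk ht))

theorem pt_tags (hE : PT E) (hN : PT N) (hk : PT k) :
    PT fun c => tags (adjE (E c)) (N c) (k c) :=
  PT.filter (p := fun c t => ok (adjE (E c)) (N c) (k c) t)
    (pt_product (PT.range (pt_T hN hk)) (pt_product (PT.range hk) (PT.range hN)))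
    (pt_ok (hE.comp PT.fst) (hN.comp PT.fst) (hk.comp PT.fst) PT.snd)

theorem pt_jobs (hE : PT E) (hN : PT N) (hk : PT k) :
    PT fun c => jobs (adjE (E c)) (N c) (k c) :=
  PT.map (f := fun c t => jobOf (adjE (E c)) (N c) (k c) t) (pt_tags hE hN hk)
    (pt_jobOf (hE.comp PT.fst) (hN.comp PT.fst) (hk.comp PT.fst) PT.snd)

/-! ## The reduction -/

/-- the list of jobs of the instance -/
def redJobs (p : Word × ℕ) : List Job :=
  bif good p.1 then jobs (adjE (readG p.1).2) (readG p.1).1 p.2 else []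

/-- the number of jobs that have to be processed -/
def redBound (p : Word × ℕ) : ℕ := bif good p.1 then p.2 * T (readG p.1).1 p.2 else 1

/-- the processing time -/
def redTime (p : Word × ℕ) : ℕ := 2 * (readG p.1).1 + 1

/-- the reduction: the instance as a word -/
def redW (p : Word × ℕ) : Word := code (enc ((p.2, redJobs p), toBin (redBound p)))

theorem pt_redJobs : PT redJobs := by
  have hr : PT fun p : Word × ℕ => readG p.1 := pt_readG PT.fst
  exact PT.cond (pt_good PT.fst) (pt_jobs (PT.snd' hr) (PT.fst' hr) PT.snd) (PT.const [])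

theorem pt_redBound : PT redBound := by
  have hr : PT fun p : Word × ℕ => readG p.1 := pt_readG PT.fst
  exact PT.cond (pt_good PT.fst) (PT.mul PT.snd (pt_T (PT.fst' hr) PT.snd)) (PT.const 1)

theorem pt_redTime : PT redTime := by
  have hr : PT fun p : Word × ℕ => readG p.1 := pt_readG PT.fst
  exact pt_M (PT.fst' hr)

theorem pt_redW : PT redW :=
  PT.code (pt_encode (PT.pair (PT.pair PT.snd pt_redJobs) (pt_toBin pt_redBound)))

theorem redJobs_valid (w : Word) (k : ℕ) : Valid k (redJobs (w, k)) := by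
  unfold redJobs
  rcases hg : good w with _ | _
  · simp only [cond_false]
    intro t ht
    exact absurd ht (by simp)
  · simp only [cond_true]
    exact jobs_valid _ _

theorem redJobs_unit (w : Word) (k : ℕ) : ∀ t ∈ redJobs (w, k), weight t = 1 ∧
    (eligible t).length ≤ 2 ∧ due t = release t + redTime (w, k) := by
  unfold redJobs redTime
  rcases hg : good w with _ | _
  · simp only [cond_false]
    intro t ht
    exact absurd ht (by simp)
  · simp only [cond_true]
    exact jobs_unit _ _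

theorem redJobs_spec (w : Word) (k : ℕ) : (w, k) ∈ CLIQUE ↔
    ∃ σ, Feasible k (redJobs (w, k)) σ ∧ redBound (w, k) ≤ value (redJobs (w, k)) σ := by
  rw [clique_iff]
  unfold redJobs redBound
  rcases hg : good w with _ | _
  · simp only [cond_false]
    constructor
    · rintro ⟨h, -⟩
      exact absurd h (by simp)
    · rintro ⟨σ, -, h⟩
      simp [value] at h
  · simp only [cond_true, true_and]
    exact exists_schedule_iff.symm

/-- the times are polynomially bounded -/
theorem redJobs_due : ∃ c : ℕ, ∀ w k, ∀ t ∈ redJobs (w, k), due t ≤ (w.length + k + 2) ^ c := by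
  have hr : PT fun p : Word × ℕ => readG p.1 := pt_readG PT.fst
  have hN := PT.fst' hr
  have h1 : PT fun p : Word × ℕ => (tags (adjE (readG p.1).2) (readG p.1).1 p.2).map
      (fun t => st (readG p.1).1 p.2 t + (2 * (readG p.1).1 + 1)) :=
    PT.map (f := fun (p : Word × ℕ) t => st (readG p.1).1 p.2 t + (2 * (readG p.1).1 + 1))
      (pt_tags (PT.snd' hr) hN PT.snd)
      (PT.add (pt_st (hN.comp PT.fst) (PT.snd' PT.fst) PT.snd) (pt_M (hN.comp PT.fst)))
  obtain ⟨c, hc⟩ := h1.size_le
  refine ⟨2 * c, fun w k t ht => ?_⟩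
  unfold redJobs at ht
  rcases hg : good w with _ | _
  · simp [hg] at ht
  · simp only [hg, cond_true] at ht
    obtain ⟨u, hu, rfl⟩ := List.mem_map.1 ht
    rw [due_jobOf]
    have h2 := hc (w, k)
    have h3 : st (readG w).1 k u + (2 * (readG w).1 + 1) ∈
        (tags (adjE (readG w).2) (readG w).1 k).map
          (fun t => st (readG w).1 k t + (2 * (readG w).1 + 1)) :=
      List.mem_map_of_mem (f := fun t => st (readG w).1 k t + (2 * (readG w).1 + 1)) hu
    have h4 := sz_mem_le h3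
    rw [sz_nat] at h4
    refine (h4.trans h2).trans ?_
    rw [pow_mul]
    refine Nat.pow_le_pow_left ?_ c
    have h5 := sz_word_le w
    simp only [sz_pair, sz_nat]
    nlinarith

end Pool.Agent.Lib.MP_f25cb6_lc.Eq
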