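import Pool.Agent.Lib.MP_f25cb6_lc.Eq.Back
import Pool.Agent.Lib.MP_f25cb6_lc.Eq.Forw

/-! # The instance has a full schedule if and only if there is a clique -/

namespace Pool.Agent.Lib.MP_f25cb6_lc.Eq

open Finset

variable {adj : ℕ → ℕ → Bool}

theorem elg_lt {N k : ℕ} {t : Tag} (ht : t ∈ tags adj N k) {i : ℕ} (hi : i ∈ elg adj N k t) :
    i < k := by
  obtain ⟨s, l, a⟩ := t
  obtain ⟨⟨-, hl, -⟩, -⟩ := mem_tags.1 ht
  rcases mem_elg hi with h | ⟨-, h, -⟩
  · simp only at h
    omega
  · simp only at h
    rw [h]
    exact js_lt (by omega)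

theorem elg_length {N k : ℕ} (t : Tag) : (elg adj N k t).length ≤ 2 := by
  unfold elg
  split_ifs <;> simp

theorem jobs_valid (N k : ℕ) : Valid k (jobs adj N k) := by
  intro t ht
  obtain ⟨u, hu, rfl⟩ := List.mem_map.1 ht
  rw [release_jobOf, due_jobOf, eligible_jobOf]
  exact ⟨by omega, fun i hi => elg_lt hu hi⟩

theorem jobs_unit (N k : ℕ) : ∀ t ∈ jobs adj N k, weight t = 1 ∧ (eligible t).length ≤ 2 ∧
    due t = release t + (2 * N + 1) := by
  intro t ht
  obtain ⟨u, hu, rfl⟩ := List.mem_map.1 ht
  rw [weight_jobOf, eligible_jobOf, release_jobOf, due_jobOf]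
  exact ⟨rfl, elg_length u, rfl⟩

/-- the tag of a job -/
def tg (adj : ℕ → ℕ → Bool) (N k : ℕ) (j : Fin (jobs adj N k).length) : Tag :=
  (tags adj N k).get (j.cast (List.length_map _))

theorem get_jobs {N k : ℕ} (j : Fin (jobs adj N k).length) :
    (jobs adj N k).get j = jobOf adj N k (tg adj N k j) := by
  have key : ∀ (l : List Tag) (f : Tag → Job) (j : Fin (l.map f).length),
      (l.map f).get j = f (l.get (j.cast (List.length_map _))) := by
    intro l f j
    simp
  exact key _ _ j

theorem tg_injective (N k : ℕ) : Function.Injective (tg adj N k) := by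
  intro i j h
  have := (List.nodup_iff_injective_get.1 (nodup_tags (adj := adj) N k)) h
  exact Fin.cast_injective _ this

theorem tg_mem {N k : ℕ} (j : Fin (jobs adj N k).length) : tg adj N k j ∈ tags adj N k :=
  List.get_mem _ _

theorem exists_tg {N k : ℕ} {t : Tag} (ht : t ∈ tags adj N k) : ∃ j, tg adj N k j = t := by
  obtain ⟨n, hn⟩ := List.get_of_mem ht
  exact ⟨n.cast (List.length_map _).symm, hn⟩

theorem value_jobs {N k : ℕ} (σ : Fin (jobs adj N k).length → Option (Fin k)) :
    value (jobs adj N k) σ = (univ.filter fun j => (σ j).isSome = true).card := by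
  unfold value
  rw [Finset.card_filter]
  refine Finset.sum_congr rfl fun j _ => ?_
  rw [get_jobs, weight_jobOf]

theorem exists_schedule_iff {N k : ℕ} :
    (∃ σ : Fin (jobs adj N k).length → Option (Fin k), Feasible k (jobs adj N k) σ ∧
      k * T N k ≤ value (jobs adj N k) σ) ↔
    ∃ v : ℕ → ℕ, (∀ i < k, v i < N) ∧ ∀ i < k, ∀ j < k, i ≠ j → adj (v i) (v j) = true := by
  classical
  constructor
  · rintro ⟨σ, ⟨helig, hdisj⟩, hval⟩
    rcases Nat.eq_zero_or_pos k with hk | hk
    · subst hk
      exact ⟨fun _ => 0, fun i hi => absurd hi (by omega), fun i hi => absurd hi (by omega)⟩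
    rw [value_jobs] at hval
    set sel := (univ.filter fun j => (σ j).isSome = true).image (tg adj N k) with hsel
    have hex : ∀ t ∈ sel, ∃ (j : Fin (jobs adj N k).length) (i : Fin k), tg adj N k j = t ∧
        σ j = some i := by
      intro t ht
      obtain ⟨j, hj, rfl⟩ := Finset.mem_image.1 ht
      obtain ⟨i, hi⟩ := Option.isSome_iff_exists.1 (Finset.mem_filter.1 hj).2
      exact ⟨j, i, rfl, hi⟩
    choose J I hJ hI using hex
    refine clique_of_sel hk sel (fun t => if h : t ∈ sel then (I t h : ℕ) else 0) ?_ ?_ ?_ ?_ ?_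
    · intro t ht
      rw [← hJ t ht]
      exact tg_mem _
    · intro t ht
      simp only [dif_pos ht]
      exact (I t ht).2
    · intro t ht
      simp only [dif_pos ht]
      have := helig (J t ht) (I t ht) (hI t ht)
      rwa [get_jobs, eligible_jobOf, hJ t ht] at this
    · intro t ht t' ht' hne hm
      simp only [dif_pos ht, dif_pos ht'] at hm
      have hm' : I t ht = I t' ht' := Fin.ext hm
      have hne' : J t ht ≠ J t' ht' := by
        intro h
        apply hne
        rw [← hJ t ht, ← hJ t' ht', h]
      have := hdisj (J t ht) (J t' ht') (I t ht) hne' (hI t ht) (by rw [hm']; exact hI t' ht')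
      rwa [get_jobs, get_jobs, due_jobOf, due_jobOf, release_jobOf, release_jobOf, hJ t ht,
        hJ t' ht'] at this
    · rw [hsel, Finset.card_image_of_injective _ (tg_injective N k)]
      exact hval
  · rintro ⟨v, hv, hadj⟩
    -- the machine, as an element of `Fin k`
    have hlt : ∀ t ∈ tags adj N k, ∀ i, sch adj N k v t = some i → i < k := by
      intro t ht i hi
      exact elg_lt ht (sch_elg hi)
    set σ : Fin (jobs adj N k).length → Option (Fin k) := fun j =>
      if h : ∃ i : Fin k, sch adj N k v (tg adj N k j) = some (i : ℕ) then some h.choose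
        else none with hσ
    have h1 : ∀ j i, σ j = some i → sch adj N k v (tg adj N k j) = some (i : ℕ) := by
      intro j i hi
      simp only [hσ] at hi
      split_ifs at hi with h
      rw [Option.some.injEq] at hi
      rw [← hi]
      exact h.choose_spec
    have h2 : ∀ j, (σ j).isSome = (sch adj N k v (tg adj N k j)).isSome := by
      intro j
      simp only [hσ]
      split_ifs with h
      · have h3 := h.choose_spec
        generalize h.choose = i0 at h3 ⊢
        rw [h3]
        rfl
      · rcases hs : sch adj N k v (tg adj N k j) with _ | i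
        · rfl
        · exact absurd ⟨⟨i, hlt _ (tg_mem j) i hs⟩, hs⟩ h
    refine ⟨σ, ⟨?_, ?_⟩, ?_⟩
    · intro j i hi
      rw [get_jobs, eligible_jobOf]
      exact sch_elg (h1 j i hi)
    · intro j j' i hne hi hi'
      rw [get_jobs, get_jobs, due_jobOf, due_jobOf, release_jobOf, release_jobOf]
      exact sch_disj (tg_mem j) (tg_mem j') (fun h => hne (tg_injective N k h))
        (h1 j i hi) (h1 j' i hi')
    · rw [value_jobs]
      refine (sch_card hv hadj).trans ?_
      have hsub : (tags adj N k).toFinset.filter (fun t => (sch adj N k v t).isSome = true) ⊆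
          (univ.filter fun j => (σ j).isSome = true).image (tg adj N k) := by
        intro t ht
        rw [Finset.mem_filter, List.mem_toFinset] at ht
        obtain ⟨j, rfl⟩ := exists_tg ht.1
        exact Finset.mem_image_of_mem _ (Finset.mem_filter.2 ⟨Finset.mem_univ _, by
          rw [h2]
          exact ht.2⟩)
      exact (Finset.card_le_card hsub).trans Finset.card_image_le

end Pool.Agent.Lib.MP_f25cb6_lc.Eq
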